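import Pool.Agent.H30.GulD

set_option autoImplicit false

namespace Pool.Agent.Results.MP_a63096_gt.DenseMetr

open Pool.Agent.H30.Gul

theorem result :
    ∀ (X : Type) [TopologicalSpace X] [CompactSpace X] [T2Space X],
      (∀ A : Set X, ∃ (Y : Type) (_ : TopologicalSpace Y), CompactSpace Y ∧
        (∃ (E : Type) (_ : NormedAddCommGroup E) (_ : NormedSpace ℝ E) (_ : CompleteSpace E)
          (e : Y → WeakSpace ℝ E), Topology.IsEmbedding e) ∧
        ∃ f : X → Y, Continuous f ∧ f ⁻¹' (f '' A) = A) →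
      ∃ D : Set X, Dense D ∧ TopologicalSpace.MetrizableSpace D := by
  intro X _ _ _ h
  refine (qq_of_split fun A => ?_).dense_metr
  obtain ⟨Y, tY, -, ⟨E, _, _, _, e, he⟩, h2⟩ := h A
  exact ⟨Y, tY, qq_weak.comap he.continuous he.injective, h2⟩

end Pool.Agent.Results.MP_a63096_gt.DenseMetr
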